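import Pool.Agent.H27.HB.TD
import Pool.Agent.H27.HB.TG

/-!
# MP_8352e3_an, row GLI: limits of the integrals
-/

set_option autoImplicit false

namespace Pool.Agent.H46.HB
open MeasureTheory Set Filter Topology Pool.Agent.H80.HS Pool.Agent.H93.HQ Pool.Agent.H27.HB
open scoped ContDiff ENNReal

theorem wt {G H a c l : ℝ} (hG : 0 ≤ G) (hH : 0 ≤ H) (hc : c ≤ a) (ha0 : 0 < a) (ha1 : a < 1)
    (hl : 1 ≤ l) : G ^ a * H ^ (1 - a) ≤ l * G + l ^ (-c) * H := by
  have hl0 : 0 < l := by linarith
  have hadd : ∀ x : ℝ, 0 ≤ x → x ^ a * x ^ (1 - a) = x := by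
    intro x hx
    rw [← Real.rpow_add' hx (by norm_num), add_sub_cancel, Real.rpow_one]
  rcases le_total H (l * G) with h | h
  · have h1 : H ^ (1 - a) ≤ (l * G) ^ (1 - a) := Real.rpow_le_rpow hH h (by linarith)
    have h2 : G ^ a * (l * G) ^ (1 - a) = l ^ (1 - a) * G := by
      rw [Real.mul_rpow hl0.le hG, mul_left_comm, hadd G hG]
    have h3 : l ^ (1 - a) ≤ l := by
      have := Real.rpow_le_rpow_of_exponent_le hl (by linarith : 1 - a ≤ 1)
      rwa [Real.rpow_one] at this
    have h4 : 0 ≤ l ^ (-c) * H := by positivity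
    calc G ^ a * H ^ (1 - a) ≤ G ^ a * (l * G) ^ (1 - a) := by gcongr
      _ = l ^ (1 - a) * G := h2
      _ ≤ l * G := by gcongr
      _ ≤ _ := by linarith
  · have h1 : G ≤ H / l := by
      rw [le_div_iff₀ hl0]
      linarith
    have h2 : (H / l) ^ a * H ^ (1 - a) = l ^ (-a) * H := by
      rw [Real.div_rpow hH hl0.le, Real.rpow_neg hl0.le, div_eq_mul_inv, mul_right_comm,
        hadd H hH, mul_comm]
    have h3 : l ^ (-a) ≤ l ^ (-c) := Real.rpow_le_rpow_of_exponent_le hl (by linarith)
    have h4 : G ^ a ≤ (H / l) ^ a := Real.rpow_le_rpow hG h1 ha0.le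
    have h5 : 0 ≤ l * G := by positivity
    calc G ^ a * H ^ (1 - a) ≤ (H / l) ^ a * H ^ (1 - a) := by gcongr
      _ = l ^ (-a) * H := h2
      _ ≤ l ^ (-c) * H := by gcongr
      _ ≤ _ := by linarith

theorem wt2 {G H a M K : ℝ} (hG : 0 ≤ G) (hH : 0 ≤ H) (ha0 : 0 < a) (ha1 : a < 1) (hK : 0 < K)
    (hKM : K ≤ M) (hGK : G ≤ K) (hM : M < G ^ a * H ^ (1 - a)) : G ≤ K / M * H := by
  by_contra hc
  push Not at hc
  have hM0 : 0 < M := hK.trans_le hKM
  have h1 : H ≤ M / K * G := by
    rw [div_mul_eq_mul_div, div_lt_iff₀ hM0] at hc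
    rw [div_mul_eq_mul_div, le_div_iff₀ hK]
    linarith
  have hl : 1 ≤ M / K := by rwa [one_le_div hK]
  have h2 : H ^ (1 - a) ≤ (M / K * G) ^ (1 - a) := Real.rpow_le_rpow hH h1 (by linarith)
  have h3 : G ^ a * (M / K * G) ^ (1 - a) = (M / K) ^ (1 - a) * G := by
    rw [Real.mul_rpow (by positivity) hG, mul_left_comm, ← Real.rpow_add' hG (by norm_num),
      add_sub_cancel, Real.rpow_one]
  have h4 : (M / K) ^ (1 - a) ≤ M / K := by
    have := Real.rpow_le_rpow_of_exponent_le hl (by linarith : 1 - a ≤ 1)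
    rwa [Real.rpow_one] at this
  have h5 : G ^ a * H ^ (1 - a) ≤ M := by
    calc G ^ a * H ^ (1 - a) ≤ G ^ a * (M / K * G) ^ (1 - a) := by gcongr
      _ = (M / K) ^ (1 - a) * G := h3
      _ ≤ M / K * K := by gcongr
      _ = M := by field_simp
  linarith

theorem maxpow_le {u v q : ℝ} (hu : 0 ≤ u) (hv : 0 ≤ v) :
    max u v ^ q ≤ |u| ^ q + |v| ^ q := by
  rw [abs_of_nonneg hu, abs_of_nonneg hv]
  have h1 : 0 ≤ u ^ q := Real.rpow_nonneg hu q
  have h2 : 0 ≤ v ^ q := Real.rpow_nonneg hv q
  rcases le_total u v with h | h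
  · rw [max_eq_right h]
    linarith
  · rw [max_eq_left h]
    linarith

theorem N_meas {n : ℕ} : Measurable (N : H n → ℝ) := by
  unfold N N4 Pool.Agent.H93.HQ.sq
  fun_prop

theorem core (hVIT : T_VIT) {n : ℕ} (q : ℕ → ℝ) (Q C : ℝ) (u v W : ℕ → H n → ℝ)
    (a : ℕ → ℝ) (c : ℝ) (F : ℕ → H n → ℝ) (f : H n → ℝ)
    (hq : ∀ k, 2 < q k) (hqQ : Tendsto q atTop (𝓝 Q))
    (hum : ∀ k, AEStronglyMeasurable (u k) volume)
    (hvm : ∀ k, AEStronglyMeasurable (v k) volume)
    (hu : ∀ k, ∀ᵐ z, 0 ≤ u k z) (hv : ∀ k, ∀ᵐ z, 0 ≤ v k z)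
    (htu : Tail q u) (htv : Tail q v)
    (hW : ∀ k, Integrable (fun z => |W k z| ^ q k) ∧ ms (q k) (W k) ≤ C)
    (hFm : ∀ k, AEStronglyMeasurable (F k) volume)
    (hlim : ∀ᵐ z, Tendsto (fun k => F k z) atTop (𝓝 (f z)))
    (hFb : ∀ k, ∀ᵐ z, |F k z| ≤ (max (u k z) (v k z) ^ q k) ^ (a k) * (|W k z| ^ q k) ^ (1 - a k))
    (hc : 0 < c) (ha : ∀ᶠ k in atTop, c ≤ a k ∧ a k < 1) :
    Tendsto (fun k => ∫ z, F k z) atTop (𝓝 (∫ z, f z)) := by
  refine (hVIT n F f hFm hlim fun η hη => ?_).2.2
  set C' := max C 1 with hC'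
  have hC0 : 0 < C' := lt_max_of_lt_right one_pos
  -- choice of the parameter
  obtain ⟨l, hl1, hl2⟩ : ∃ l : ℝ, 1 ≤ l ∧ l ^ (-c) * C' ≤ η / 4 := by
    have h1 := (tendsto_rpow_neg_atTop hc).eventually (ge_mem_nhds (show (0 : ℝ) < η / 4 / C' by positivity))
    obtain ⟨l, h2, h3⟩ := (h1.and (eventually_ge_atTop (1 : ℝ))).exists
    refine ⟨l, h3, ?_⟩
    rwa [le_div_iff₀ hC0] at h2
  have hl0 : 0 < l := by linarith
  obtain ⟨M1, R1, h1⟩ := htu (η / (8 * l)) (by positivity)
  obtain ⟨M2, R2, h2⟩ := htv (η / (8 * l)) (by positivity)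
  set M' := max (max M1 M2) 1 with hM'
  have hM'1 : 1 ≤ M' := le_max_right _ _
  set K := M' ^ (Q + 1) with hK
  have hK0 : 0 < K := by positivity
  set M := K * (1 + 4 * l * C' / η) with hM
  have hKM : K ≤ M := by
    have : 0 ≤ 4 * l * C' / η := by positivity
    calc K = K * 1 := (mul_one K).symm
      _ ≤ M := by rw [hM]; gcongr; linarith
  have hM0 : 0 < M := hK0.trans_le hKM
  have hKMle : l * (K / M) * C' ≤ η / 4 := by
    have h3 : K / M = 1 / (1 + 4 * l * C' / η) := by
      rw [hM]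
      field_simp
    have h4 : 0 < 4 * l * C' / η := by positivity
    have h5 : K / M ≤ 1 / (4 * l * C' / η) := by
      rw [h3]
      exact one_div_le_one_div_of_le h4 (by linarith)
    calc l * (K / M) * C' ≤ l * (1 / (4 * l * C' / η)) * C' := by gcongr
      _ = η / 4 := by field_simp
  have hqle : ∀ᶠ k in atTop, q k ≤ Q + 1 :=
    (hqQ.eventually (gt_mem_nhds (show Q < Q + 1 by linarith))).mono fun k hk => hk.le
  refine ⟨M, max R1 R2, ?_⟩
  filter_upwards [h1, h2, hqle, ha] with k hk1 hk2 hkq hka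
  have hak0 : 0 < a k := hc.trans_le hka.1
  obtain ⟨hWi, hWC⟩ := hW k
  have hq0 : 0 ≤ q k := by have := hq k; linarith
  -- integrability
  have hFi : Integrable (F k) := by
    refine ((hk1.1.add hk2.1).add hWi).mono' (hFm k) ?_
    filter_upwards [hFb k, hu k, hv k] with z hz hzu hzv
    have hm0 : 0 ≤ max (u k z) (v k z) := le_max_of_le_left hzu
    have h3 := wt (c := c) (l := 1) (Real.rpow_nonneg hm0 (q k))
      (Real.rpow_nonneg (abs_nonneg (W k z)) (q k)) hka.1 hak0 hka.2 le_rfl
    rw [Real.one_rpow, one_mul, one_mul] at h3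
    have h4 := maxpow_le (q := q k) hzu hzv
    rw [Real.norm_eq_abs]
    simp only [Pi.add_apply]
    linarith
  refine ⟨hFi, ?_⟩
  have hS1 : NullMeasurableSet {z | M1 < |u k z| ∨ R1 < N z} :=
    (nullMeasurableSet_lt aemeasurable_const (hum k).aemeasurable.abs).union
      (measurableSet_lt measurable_const N_meas).nullMeasurableSet
  have hS2 : NullMeasurableSet {z | M2 < |v k z| ∨ R2 < N z} :=
    (nullMeasurableSet_lt aemeasurable_const (hvm k).aemeasurable.abs).union
      (measurableSet_lt measurable_const N_meas).nullMeasurableSet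
  have hSE : NullMeasurableSet {z | M < |F k z| ∨ max R1 R2 < N z} :=
    (nullMeasurableSet_lt aemeasurable_const (hFm k).aemeasurable.abs).union
      (measurableSet_lt measurable_const N_meas).nullMeasurableSet
  set I1 : H n → ℝ := {z | M1 < |u k z| ∨ R1 < N z}.indicator fun z => |u k z| ^ q k with hI1
  set I2 : H n → ℝ := {z | M2 < |v k z| ∨ R2 < N z}.indicator fun z => |v k z| ^ q k with hI2
  have hI1i : Integrable I1 := hk1.1.indicator₀ hS1
  have hI2i : Integrable I2 := hk2.1.indicator₀ hS2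
  have hI1e : ∫ z, I1 z ≤ η / (8 * l) := by
    rw [hI1, integral_indicator₀ hS1]
    exact hk1.2
  have hI2e : ∫ z, I2 z ≤ η / (8 * l) := by
    rw [hI2, integral_indicator₀ hS2]
    exact hk2.2
  have hI10 : ∀ z, 0 ≤ I1 z := fun z =>
    indicator_nonneg (fun z _ => Real.rpow_nonneg (abs_nonneg _) _) z
  have hI20 : ∀ z, 0 ≤ I2 z := fun z =>
    indicator_nonneg (fun z _ => Real.rpow_nonneg (abs_nonneg _) _) z
  set Φ : H n → ℝ := fun z => l * (I1 z + I2 z) + (l * (K / M) + l ^ (-c)) * |W k z| ^ q k with hΦ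
  have hΦi : Integrable Φ := ((hI1i.add hI2i).const_mul l).add (hWi.const_mul _)
  have hΦ0 : ∀ z, 0 ≤ Φ z := by
    intro z
    have := hI10 z
    have := hI20 z
    have h3 : 0 ≤ |W k z| ^ q k := Real.rpow_nonneg (abs_nonneg _) _
    have h4 : 0 ≤ l ^ (-c) := Real.rpow_nonneg hl0.le _
    simp only [hΦ]
    positivity
  have hpt : ∀ᵐ z, z ∈ {z | M < |F k z| ∨ max R1 R2 < N z} → |F k z| ≤ Φ z := by
    filter_upwards [hFb k, hu k, hv k] with z hz hzu hzv hzE
    set m := max (u k z) (v k z) with hm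
    have hm0 : 0 ≤ m := le_max_of_le_left hzu
    have hG0 : 0 ≤ m ^ q k := Real.rpow_nonneg hm0 (q k)
    have hH0 : 0 ≤ |W k z| ^ q k := Real.rpow_nonneg (abs_nonneg (W k z)) (q k)
    have h3 := wt (c := c) hG0 hH0 hka.1 hak0 hka.2 hl1
    have h4 : m ^ q k ≤ I1 z + I2 z + K / M * |W k z| ^ q k := by
      have hKMH : 0 ≤ K / M * |W k z| ^ q k := by positivity
      by_cases hN : max R1 R2 < N z
      · have h5 : z ∈ {z | M1 < |u k z| ∨ R1 < N z} := Or.inr ((le_max_left _ _).trans_lt hN)
        have h6 : z ∈ {z | M2 < |v k z| ∨ R2 < N z} := Or.inr ((le_max_right _ _).trans_lt hN)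
        have h7 : I1 z = |u k z| ^ q k := indicator_of_mem h5 _
        have h8 : I2 z = |v k z| ^ q k := indicator_of_mem h6 _
        have h9 := maxpow_le (q := q k) hzu hzv
        rw [h7, h8]
        linarith
      · rcases lt_or_ge M' m with hmM | hmM
        · rcases le_total (u k z) (v k z) with huv | huv
          · have h5 : m = v k z := max_eq_right huv
            have h6 : z ∈ {z | M2 < |v k z| ∨ R2 < N z} := by
              left
              rw [abs_of_nonneg hzv, ← h5]
              exact ((le_max_right _ _).trans (le_max_left _ _)).trans_lt hmM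
            have h7 : I2 z = |v k z| ^ q k := indicator_of_mem h6 _
            rw [h7, abs_of_nonneg hzv, h5]
            have := hI10 z
            linarith
          · have h5 : m = u k z := max_eq_left huv
            have h6 : z ∈ {z | M1 < |u k z| ∨ R1 < N z} := by
              left
              rw [abs_of_nonneg hzu, ← h5]
              exact ((le_max_left _ _).trans (le_max_left _ _)).trans_lt hmM
            have h7 : I1 z = |u k z| ^ q k := indicator_of_mem h6 _
            rw [h7, abs_of_nonneg hzu, h5]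
            have := hI20 z
            linarith
        · have h5 : M < |F k z| := by
            rcases hzE with h | h
            · exact h
            · exact absurd h hN
          have h6 : m ^ q k ≤ K := by
            calc m ^ q k ≤ M' ^ q k := Real.rpow_le_rpow hm0 hmM hq0
              _ ≤ M' ^ (Q + 1) := Real.rpow_le_rpow_of_exponent_le hM'1 hkq
          have h7 := wt2 hG0 hH0 hak0 hka.2 hK0 hKM h6 (h5.trans_le hz)
          have := hI10 z
          have := hI20 z
          linarith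
    calc |F k z| ≤ l * m ^ q k + l ^ (-c) * |W k z| ^ q k := hz.trans h3
      _ ≤ l * (I1 z + I2 z + K / M * |W k z| ^ q k) + l ^ (-c) * |W k z| ^ q k := by gcongr
      _ = Φ z := by simp only [hΦ]; ring
  calc ∫ z in {z | M < |F k z| ∨ max R1 R2 < N z}, |F k z|
      ≤ ∫ z in {z | M < |F k z| ∨ max R1 R2 < N z}, Φ z :=
        integral_mono_ae hFi.abs.integrableOn hΦi.integrableOn ((ae_restrict_iff'₀ hSE).2 hpt)
    _ ≤ ∫ z, Φ z := setIntegral_le_integral hΦi (Filter.Eventually.of_forall hΦ0)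
    _ = l * ((∫ z, I1 z) + ∫ z, I2 z) + (l * (K / M) + l ^ (-c)) * ms (q k) (W k) := by
        have e1 : ∫ z, Φ z = (∫ z, l * (I1 z + I2 z)) +
            ∫ z, (l * (K / M) + l ^ (-c)) * |W k z| ^ q k :=
          integral_add ((hI1i.add hI2i).const_mul l) (hWi.const_mul _)
        rw [e1, integral_const_mul, integral_const_mul, integral_add hI1i hI2i]
        rfl
    _ ≤ l * (η / (8 * l) + η / (8 * l)) + (l * (K / M) + l ^ (-c)) * C' := by
        have h4 : 0 ≤ l ^ (-c) := Real.rpow_nonneg hl0.le _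
        have h5 : ms (q k) (W k) ≤ C' := hWC.trans (le_max_left _ _)
        gcongr
    _ = η / 4 + (l * (K / M) * C' + l ^ (-c) * C') := by
        field_simp
        ring
    _ ≤ η := by linarith

theorem pf_GLI (hBQE : T_BQE) (hVIT : T_VIT) : T_GLI := by
  obtain ⟨hb1, hb2, hb3⟩ := hBQE
  intro n q Q C u v W y Z hQ hq hqQ hy hym hZm hum hvm hWm hu hv hul hvl hWl htu htv hW
  have hqk0 : ∀ k, 0 < q k := fun k => by have := hq k; linarith
  have huvm : ∀ k, AEMeasurable (fun z => (u k z, v k z)) volume := fun k =>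
    (hum k).aemeasurable.prodMk (hvm k).aemeasurable
  constructor
  · refine core hVIT q Q C u v W (fun k => (q k - 2) / q k) ((Q - 2) / (2 * Q)) _ _ hq hqQ hum hvm
      hu hv htu htv hW ?_ ?_ ?_ ?_ ?_
    · intro k
      exact (((hb3 (q k)).1.comp_aemeasurable (huvm k)).mul
        ((hWm k).aemeasurable.pow_const 2)).aestronglyMeasurable
    · filter_upwards [hul, hvl, hWl] with z h1 h2 h3
      exact (hb2 q _ _ Q (y z) hQ (hy z) hqQ h1 h2).1.mul (h3.pow 2)
    · intro k
      filter_upwards [hu k, hv k] with z h1 h2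
      obtain ⟨-, -, h3, h4, -, -⟩ := hb1 (q k) (u k z) (v k z) (hq k) h1 h2
      have hm0 : 0 ≤ max (u k z) (v k z) := le_max_of_le_left h1
      have h5 : (max (u k z) (v k z) ^ q k) ^ ((q k - 2) / q k) =
          max (u k z) (v k z) ^ (q k - 2) := by
        rw [← Real.rpow_mul hm0]
        congr 1
        have := hqk0 k
        field_simp
      have h6 : (|W k z| ^ q k) ^ (1 - (q k - 2) / q k) = W k z ^ 2 := by
        rw [← Real.rpow_mul (abs_nonneg _)]
        have h7 : q k * (1 - (q k - 2) / q k) = 2 := by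
          have := hqk0 k
          field_simp
          ring
        rw [h7, Real.rpow_two, sq_abs]
      rw [h5, h6, abs_mul, abs_of_nonneg h3, abs_of_nonneg (sq_nonneg (W k z))]
      gcongr
    · have : 0 < Q - 2 := by linarith
      positivity
    · have h1 : Tendsto (fun k => (q k - 2) / q k) atTop (𝓝 ((Q - 2) / Q)) :=
        (hqQ.sub_const 2).div hqQ (by linarith)
      have h2 : (Q - 2) / (2 * Q) < (Q - 2) / Q := by
        have : 0 < Q - 2 := by linarith
        have : 0 < Q := by linarith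
        apply div_lt_div_of_pos_left <;> linarith
      filter_upwards [h1.eventually (lt_mem_nhds h2)] with k hk
      refine ⟨hk.le, ?_⟩
      rw [div_lt_one (hqk0 k)]
      linarith
  · intro θ hθm hθ
    refine core hVIT q Q C u v W (fun k => (q k - 1) / q k) ((Q - 1) / (2 * Q)) _ _ hq hqQ hum hvm
      hu hv htu htv hW ?_ ?_ ?_ ?_ ?_
    · intro k
      exact ((((hb3 (q k)).2.comp_aemeasurable (huvm k)).mul
        (hWm k).aemeasurable).mul hθm.aemeasurable).aestronglyMeasurable
    · filter_upwards [hul, hvl, hWl] with z h1 h2 h3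
      exact ((hb2 q _ _ Q (y z) hQ (hy z) hqQ h1 h2).2.mul h3).mul_const _
    · intro k
      filter_upwards [hu k, hv k] with z h1 h2
      obtain ⟨-, -, -, -, h3, h4⟩ := hb1 (q k) (u k z) (v k z) (hq k) h1 h2
      have hm0 : 0 ≤ max (u k z) (v k z) := le_max_of_le_left h1
      have h5 : (max (u k z) (v k z) ^ q k) ^ ((q k - 1) / q k) =
          max (u k z) (v k z) ^ (q k - 1) := by
        rw [← Real.rpow_mul hm0]
        congr 1
        have := hqk0 k
        field_simp
      have h6 : (|W k z| ^ q k) ^ (1 - (q k - 1) / q k) = |W k z| := by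
        rw [← Real.rpow_mul (abs_nonneg _)]
        have h7 : q k * (1 - (q k - 1) / q k) = 1 := by
          have := hqk0 k
          field_simp
          ring
        rw [h7, Real.rpow_one]
      rw [h5, h6, abs_mul, abs_mul, abs_of_nonneg h3]
      calc cq (q k) (u k z) (v k z) * |W k z| * |θ z|
          ≤ cq (q k) (u k z) (v k z) * |W k z| * 1 := by
            have := hθ z
            gcongr
        _ ≤ max (u k z) (v k z) ^ (q k - 1) * |W k z| := by
            rw [mul_one]
            gcongr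
    · have : 0 < Q - 1 := by linarith
      have : 0 < Q := by linarith
      positivity
    · have h1 : Tendsto (fun k => (q k - 1) / q k) atTop (𝓝 ((Q - 1) / Q)) :=
        (hqQ.sub_const 1).div hqQ (by linarith)
      have h2 : (Q - 1) / (2 * Q) < (Q - 1) / Q := by
        have : 0 < Q - 1 := by linarith
        have : 0 < Q := by linarith
        apply div_lt_div_of_pos_left <;> linarith
      filter_upwards [h1.eventually (lt_mem_nhds h2)] with k hk
      refine ⟨hk.le, ?_⟩
      rw [div_lt_one (hqk0 k)]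
      linarith

end Pool.Agent.H46.HB
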