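import Pool.Agent.H27.HB.TA
import Pool.Agent.H27.HB.TF

/-!
# MP_8352e3_an, row GSE: equality in the ground state inequality
-/

set_option autoImplicit false

namespace Pool.Agent.H46.HB
open MeasureTheory Set Filter Topology Pool.Agent.H80.HS Pool.Agent.H93.HQ Pool.Agent.H27.HB
open scoped ContDiff ENNReal

theorem gse_ww {n : ℕ} (z : H n) : 0 < ww z := by
  have h2 : 0 ≤ Pool.Agent.H93.HQ.sq z := sq_nonneg' z
  unfold ww
  positivity

theorem gse_ww_meas {n : ℕ} : Measurable (ww : H n → ℝ) := by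
  unfold ww Pool.Agent.H93.HQ.sq
  fun_prop

theorem gse_sq {n : ℕ} {g : H n → G n} (hg' : MemLp g (ENNReal.ofReal 2)) :
    Integrable fun z => ‖g z‖ ^ 2 := by
  have h : ENNReal.ofReal 2 = 2 := by norm_num
  rw [h] at hg'
  exact (memLp_two_iff_integrable_sq_norm hg'.1).1 hg'

theorem pf_GSE (hGSI : T_GSI) (hCLA : T_CLA) (hCLT : T_CLT) (hHGC : T_HGC) : T_GSE := by
  intro n hn f g hfg hle
  refine ⟨hfg, fun φ hφ => ?_⟩
  have hn1 : (1 : ℝ) ≤ n := by exact_mod_cast hn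
  have hp : (2 : ℝ) < 2 * n + 2 := by linarith
  have hφc : Cl 2 φ (hg φ) := hCLT n hn 2 (by norm_num) hp φ hφ
  obtain ⟨i1, k1⟩ := hGSI n hn f g hfg
  obtain ⟨i2, -⟩ := hGSI n hn φ (hg φ) hφc
  have hfm := hfg.1.1
  have hφm := hφc.1.1
  have hgm := hfg.2.1.1
  have hhm := hφc.2.1.1
  have j1 := gse_sq hfg.2.1
  have j2 := gse_sq hφc.2.1
  have i3 : Integrable fun z => f z * φ z / ww z := by
    refine (i1.add i2).mono' ((hfm.mul hφm).aemeasurable.div
      gse_ww_meas.aemeasurable).aestronglyMeasurable ?_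
    refine Filter.Eventually.of_forall fun z => ?_
    have hw := gse_ww z
    show ‖f z * φ z / ww z‖ ≤ f z ^ 2 / ww z + φ z ^ 2 / ww z
    rw [norm_div, Real.norm_eq_abs, Real.norm_eq_abs, abs_of_pos hw, ← add_div]
    gcongr
    rw [abs_le]
    constructor <;> nlinarith [sq_nonneg (f z + φ z), sq_nonneg (f z - φ z)]
  have j3 : Integrable fun z => inner ℝ (g z) (hg φ z) := by
    refine (j1.add j2).mono' (hgm.inner hhm) ?_
    refine Filter.Eventually.of_forall fun z => ?_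
    show ‖inner ℝ (g z) (hg φ z)‖ ≤ ‖g z‖ ^ 2 + ‖hg φ z‖ ^ 2
    have h1 := norm_inner_le_norm (𝕜 := ℝ) (g z) (hg φ z)
    nlinarith [sq_nonneg (‖g z‖ - ‖hg φ z‖), sq_nonneg (‖g z‖), sq_nonneg (‖hg φ z‖)]
  set A1 := ∫ z, f z ^ 2 / ww z with hA1
  set A2 := ∫ z, f z * φ z / ww z with hA2
  set A3 := ∫ z, φ z ^ 2 / ww z with hA3
  set B1 := ∫ z, ‖g z‖ ^ 2 with hB1
  set B2 := ∫ z, inner ℝ (g z) (hg φ z) with hB2
  set B3 := ∫ z, ‖hg φ z‖ ^ 2 with hB3
  have hen : en 2 g = B1 := by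
    unfold en
    simp only [Real.rpow_two]
    rfl
  rw [hen] at hle
  have hineq : ∀ s : ℝ, 0 ≤ (B3 - 4 * (n : ℝ) ^ 2 * A3) * (s * s) +
      (2 * (B2 - 4 * (n : ℝ) ^ 2 * A2)) * s + (B1 - 4 * (n : ℝ) ^ 2 * A1) := by
    intro s
    obtain ⟨-, h1⟩ := hGSI n hn _ _ (hCLA n hn 2 (by norm_num) hp f φ g (hg φ) 1 s hfg hφc)
    have e1 : ∫ z, (1 * f z + s * φ z) ^ 2 / ww z = A1 + 2 * s * A2 + s ^ 2 * A3 := by
      have : (fun z => (1 * f z + s * φ z) ^ 2 / ww z) = fun z =>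
          (f z ^ 2 / ww z + 2 * s * (f z * φ z / ww z)) + s ^ 2 * (φ z ^ 2 / ww z) := by
        ext z
        ring
      have i13 : Integrable fun z => f z ^ 2 / ww z + 2 * s * (f z * φ z / ww z) :=
        i1.add (i3.const_mul _)
      rw [this, integral_add i13 (i2.const_mul _),
        integral_add i1 (i3.const_mul _), integral_const_mul, integral_const_mul]
    have e2 : en 2 (fun z => (1 : ℝ) • g z + s • hg φ z) = B1 + 2 * s * B2 + s ^ 2 * B3 := by
      unfold en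
      simp only [Real.rpow_two]
      have : (fun z => ‖(1 : ℝ) • g z + s • hg φ z‖ ^ 2) = fun z =>
          (‖g z‖ ^ 2 + 2 * s * inner ℝ (g z) (hg φ z)) + s ^ 2 * ‖hg φ z‖ ^ 2 := by
        ext z
        rw [one_smul, norm_add_sq_real, norm_smul, real_inner_smul_right, mul_pow,
          Real.norm_eq_abs, sq_abs]
        ring
      have j13 : Integrable fun z => ‖g z‖ ^ 2 + 2 * s * inner ℝ (g z) (hg φ z) :=
        j1.add (j3.const_mul _)
      rw [this, integral_add j13 (j2.const_mul _),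
        integral_add j1 (j3.const_mul _), integral_const_mul, integral_const_mul]
    rw [e1, e2] at h1
    linarith
  have hd := discrim_le_zero hineq
  unfold discrim at hd
  have h0 : B1 - 4 * (n : ℝ) ^ 2 * A1 = 0 := by
    rw [hen] at k1
    linarith
  rw [h0] at hd
  have h3 : (2 * (B2 - 4 * (n : ℝ) ^ 2 * A2)) ^ 2 = 0 :=
    le_antisymm (by linarith) (_root_.sq_nonneg _)
  have h4 : 2 * (B2 - 4 * (n : ℝ) ^ 2 * A2) = 0 := by
    exact (pow_eq_zero_iff two_ne_zero).1 h3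
  linarith

end Pool.Agent.H46.HB
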