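import Pool.Agent.H27.HB.TD

/-!
# MP_8352e3_an, row VIT: Vitali's theorem
-/

set_option autoImplicit false

namespace Pool.Agent.H46.HB
open MeasureTheory Set Filter Topology Pool.Agent.H80.HS Pool.Agent.H93.HQ Pool.Agent.H27.HB
open scoped ContDiff ENNReal

theorem vit_N_meas {n : ℕ} : Measurable (N : H n → ℝ) := by
  unfold N N4 Pool.Agent.H93.HQ.sq
  fun_prop

theorem vit_ball {n : ℕ} (ρ : ℝ) : volume {z : H n | N z ≤ ρ} ≠ ⊤ := by
  have hsub : {z : H n | N z ≤ ρ} ⊆ Metric.closedBall 0 (max ρ (ρ ^ 2)) := by
    intro z hz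
    have hz' : N z ≤ ρ := hz
    have h0 := N_nonneg z
    have h4 := N_pow_four' z
    have hsq : Pool.Agent.H93.HQ.sq z = ‖z.1‖ ^ 2 + ‖z.2.1‖ ^ 2 := rfl
    have hmz := mz_le_N z
    have hm2 := mz_sq z
    have hm0 := mz_nonneg z
    have h1 : ‖z.1‖ ≤ ρ := by
      have : ‖z.1‖ ^ 2 ≤ mz z ^ 2 := by rw [hm2, hsq]; nlinarith [sq_nonneg ‖z.2.1‖]
      have := (pow_le_pow_iff_left₀ (norm_nonneg _) hm0 two_ne_zero).1 this
      linarith
    have h2 : ‖z.2.1‖ ≤ ρ := by
      have : ‖z.2.1‖ ^ 2 ≤ mz z ^ 2 := by rw [hm2, hsq]; nlinarith [sq_nonneg ‖z.1‖]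
      have := (pow_le_pow_iff_left₀ (norm_nonneg _) hm0 two_ne_zero).1 this
      linarith
    have h3 : |z.2.2| ≤ ρ ^ 2 := by
      have h5 : |z.2.2| ^ 2 ≤ (N z ^ 2) ^ 2 := by
        rw [sq_abs]; nlinarith [sq_nonneg (Pool.Agent.H93.HQ.sq z)]
      have h6 := (pow_le_pow_iff_left₀ (abs_nonneg _) (by positivity) two_ne_zero).1 h5
      nlinarith
    rw [mem_closedBall_zero_iff, Prod.norm_def, Prod.norm_def, Real.norm_eq_abs]
    refine max_le (h1.trans (le_max_left _ _)) (max_le (h2.trans (le_max_left _ _)) ?_)
    exact h3.trans (le_max_right _ _)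
  exact ((measure_mono hsub).trans_lt measure_closedBall_lt_top).ne

/-- truncation at height `M` and radius `R` -/
noncomputable def trc {n : ℕ} (M R : ℝ) (F : H n → ℝ) : H n → ℝ :=
  {z | N z ≤ R}.indicator fun z => max (-M) (min M (F z))

theorem pf_VIT : T_VIT := by
  intro n F f hFm hlim htl
  have hfm : AEStronglyMeasurable f volume := aestronglyMeasurable_of_tendsto_ae atTop hFm hlim
  have key : ∀ η : ℝ, 0 < η → ∀ᶠ k in atTop,
      Integrable (F k) ∧ eLpNorm (F k - f) 1 volume ≤ 3 * ENNReal.ofReal η := by
    intro η hη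
    obtain ⟨M0, R, h0⟩ := htl η hη
    set M := max M0 1 with hM
    have hM1 : 1 ≤ M := le_max_right _ _
    have hB : MeasurableSet {z : H n | N z ≤ R} := measurableSet_le vit_N_meas measurable_const
    have htm : ∀ g : H n → ℝ, AEStronglyMeasurable g volume →
        AEStronglyMeasurable (trc M R g) volume := by
      intro g hg
      refine AEStronglyMeasurable.indicator ?_ hB
      exact (aemeasurable_const.max (aemeasurable_const.min hg.aemeasurable)).aestronglyMeasurable
    -- (a)
    have ha : ∀ᶠ k in atTop, Integrable (F k) ∧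
        eLpNorm (F k - trc M R (F k)) 1 volume ≤ ENNReal.ofReal η := by
      filter_upwards [h0] with k hk
      refine ⟨hk.1, ?_⟩
      have hSE : NullMeasurableSet {z | M0 < |F k z| ∨ R < N z} :=
        (nullMeasurableSet_lt aemeasurable_const (hFm k).aemeasurable.abs).union
          (measurableSet_lt measurable_const vit_N_meas).nullMeasurableSet
      have hi : Integrable ({z | M0 < |F k z| ∨ R < N z}.indicator fun z => |F k z|) :=
        hk.1.abs.indicator₀ hSE
      rw [eLpNorm_one_eq_lintegral_enorm]
      calc ∫⁻ z, ‖(F k - trc M R (F k)) z‖ₑ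
          ≤ ∫⁻ z, ENNReal.ofReal (({z | M0 < |F k z| ∨ R < N z}.indicator fun z => |F k z|) z) := by
            refine lintegral_mono fun z => ?_
            rw [← ofReal_norm_eq_enorm]
            refine ENNReal.ofReal_le_ofReal ?_
            rw [Pi.sub_apply, Real.norm_eq_abs]
            by_cases hz : z ∈ {z | M0 < |F k z| ∨ R < N z}
            · rw [indicator_of_mem hz]
              unfold trc
              by_cases hzB : z ∈ {z : H n | N z ≤ R}
              · rw [indicator_of_mem hzB]
                rcases le_total 0 (F k z) with h | h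
                · rw [max_eq_right (le_trans (by linarith) (le_min (by linarith) h)),
                    abs_of_nonneg h, abs_of_nonneg (sub_nonneg.2 (min_le_right _ _))]
                  have : 0 ≤ min M (F k z) := le_min (by linarith) h
                  linarith
                · rw [min_eq_right (by linarith), abs_of_nonpos h,
                    abs_of_nonpos (sub_nonpos.2 (le_max_right _ _))]
                  have : max (-M) (F k z) ≤ 0 := max_le (by linarith) h
                  linarith
              · rw [indicator_of_notMem hzB, sub_zero]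
            · rw [indicator_of_notMem hz]
              simp only [mem_setOf_eq, not_or, not_lt] at hz
              unfold trc
              rw [indicator_of_mem (show z ∈ {z : H n | N z ≤ R} from hz.2)]
              have h2 : |F k z| ≤ M := hz.1.trans (le_max_left _ _)
              rw [abs_le] at h2
              rw [min_eq_right h2.2, max_eq_right h2.1, sub_self, abs_zero]
        _ = ENNReal.ofReal (∫ z, ({z | M0 < |F k z| ∨ R < N z}.indicator fun z => |F k z|) z) := by
            rw [ofReal_integral_eq_lintegral_ofReal hi]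
            exact Filter.Eventually.of_forall fun z => indicator_nonneg (fun z _ => abs_nonneg _) z
        _ ≤ ENNReal.ofReal η := by
            refine ENNReal.ofReal_le_ofReal ?_
            rw [integral_indicator₀ hSE]
            exact hk.2
    -- pointwise limits
    have hlt : ∀ᵐ z, Tendsto (fun k => trc M R (F k) z) atTop (𝓝 (trc M R f z)) := by
      filter_upwards [hlim] with z hz
      unfold trc
      by_cases hzB : z ∈ {z : H n | N z ≤ R}
      · simp only [indicator_of_mem hzB]
        exact tendsto_const_nhds.max (tendsto_const_nhds.min hz)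
      · simp only [indicator_of_notMem hzB]
        exact tendsto_const_nhds
    -- (b)
    have hb : eLpNorm (f - trc M R f) 1 volume ≤ ENNReal.ofReal η := by
      have h1 := Lp.eLpNorm_lim_le_liminf_eLpNorm (p := 1) (μ := volume)
        (f := fun k => F k - trc M R (F k)) (fun k => (hFm k).sub (htm _ (hFm k)))
        (f - trc M R f) (by
          filter_upwards [hlim, hlt] with z h1 h2
          exact h1.sub h2)
      refine h1.trans ?_
      refine liminf_le_of_frequently_le' ?_
      exact (ha.mono fun k hk => hk.2).frequently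
    -- (c)
    have hc : Tendsto (fun k => eLpNorm (trc M R (F k) - trc M R f) 1 volume) atTop (𝓝 0) := by
      have h1 := tendsto_lintegral_norm_of_dominated_convergence (μ := volume)
        (F := fun k => trc M R (F k)) (f := trc M R f)
        (bound := {z : H n | N z ≤ R}.indicator fun _ => M)
        (fun k => htm _ (hFm k)) ?_ ?_ hlt
      · refine h1.congr fun k => ?_
        rw [eLpNorm_one_eq_lintegral_enorm]
        refine lintegral_congr fun z => ?_
        rw [Pi.sub_apply, ← ofReal_norm_eq_enorm]
      · refine ((integrable_indicator_iff hB).2 ?_).2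
        exact integrableOn_const (vit_ball R)
      · intro k
        refine Filter.Eventually.of_forall fun z => ?_
        unfold trc
        by_cases hzB : z ∈ {z : H n | N z ≤ R}
        · simp only [indicator_of_mem hzB]
          rw [Real.norm_eq_abs, abs_le]
          exact ⟨le_max_left _ _, max_le (by linarith) (min_le_left _ _)⟩
        · simp only [indicator_of_notMem hzB, norm_zero, le_refl]
    have hc' : ∀ᶠ k in atTop, eLpNorm (trc M R (F k) - trc M R f) 1 volume ≤ ENNReal.ofReal η :=
      hc.eventually (ge_mem_nhds (ENNReal.ofReal_pos.2 hη))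
    filter_upwards [ha, hc'] with k hk1 hk2
    refine ⟨hk1.1, ?_⟩
    have e1 : F k - f = (F k - trc M R (F k)) + ((trc M R (F k) - trc M R f) -
        (f - trc M R f)) := by
      ext z
      simp only [Pi.sub_apply, Pi.add_apply]
      ring
    rw [e1]
    have m1 := (hFm k).sub (htm _ (hFm k))
    have m2 := (htm _ (hFm k)).sub (htm _ hfm)
    have m3 := hfm.sub (htm _ hfm)
    calc _ ≤ eLpNorm (F k - trc M R (F k)) 1 volume +
        eLpNorm ((trc M R (F k) - trc M R f) - (f - trc M R f)) 1 volume :=
          eLpNorm_add_le m1 (m2.sub m3) le_rfl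
      _ ≤ eLpNorm (F k - trc M R (F k)) 1 volume +
        (eLpNorm (trc M R (F k) - trc M R f) 1 volume + eLpNorm (f - trc M R f) 1 volume) := by
          gcongr
          exact eLpNorm_sub_le m2 m3 le_rfl
      _ ≤ ENNReal.ofReal η + (ENNReal.ofReal η + ENNReal.ofReal η) := by
          gcongr
          exact hk1.2
      _ = 3 * ENNReal.ofReal η := by ring
  have hfi : Integrable f := by
    obtain ⟨k, hk1, hk2⟩ := (key 1 one_pos).exists
    have h1 : MemLp (F k - f) 1 volume := by
      refine ⟨(hFm k).sub hfm, hk2.trans_lt ?_⟩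
      exact ENNReal.mul_lt_top (by norm_num) ENNReal.ofReal_lt_top
    have h2 : Integrable (F k - f) := memLp_one_iff_integrable.1 h1
    have h3 := hk1.sub h2
    have h4 : F k - (F k - f) = f := sub_sub_cancel _ _
    rwa [h4] at h3
  have hmain : ∀ ε : ℝ, 0 < ε → ∀ᶠ k in atTop, Integrable (F k) ∧ ∫ z, |F k z - f z| ≤ ε := by
    intro ε hε
    filter_upwards [key (ε / 3) (by positivity)] with k hk
    refine ⟨hk.1, ?_⟩
    have hi2 : Integrable (fun z => |F k z - f z|) := (hk.1.sub hfi).abs
    have h1 : ENNReal.ofReal (∫ z, |F k z - f z|) ≤ ENNReal.ofReal ε := by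
      rw [ofReal_integral_eq_lintegral_ofReal hi2
        (Filter.Eventually.of_forall fun z => abs_nonneg _)]
      have h2 := hk.2
      rw [eLpNorm_one_eq_lintegral_enorm] at h2
      have h3 : 3 * ENNReal.ofReal (ε / 3) = ENNReal.ofReal ε := by
        rw [← ENNReal.ofReal_ofNat 3, ← ENNReal.ofReal_mul (by norm_num)]
        congr 1
        ring
      rw [h3] at h2
      refine le_trans (le_of_eq (lintegral_congr fun z => ?_)) h2
      rw [Pi.sub_apply, ← ofReal_norm_eq_enorm, Real.norm_eq_abs]
    exact (ENNReal.ofReal_le_ofReal_iff hε.le).1 h1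
  have h0 : Tendsto (fun k => ∫ z, |F k z - f z|) atTop (𝓝 0) := by
    rw [Metric.tendsto_nhds]
    intro ε hε
    filter_upwards [hmain (ε / 2) (by positivity)] with k hk
    rw [Real.dist_0_eq_abs, abs_of_nonneg (integral_nonneg fun z => abs_nonneg _)]
    linarith [hk.2]
  refine ⟨hfi, h0, ?_⟩
  rw [tendsto_iff_norm_sub_tendsto_zero]
  refine squeeze_zero' (Filter.Eventually.of_forall fun k => norm_nonneg _) ?_ h0
  filter_upwards [hmain 1 one_pos] with k hk
  rw [← integral_sub hk.1 hfi]
  exact norm_integral_le_integral_norm _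

end Pool.Agent.H46.HB
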