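import Pool.Agent.H27.HB.TD

/-!
# MP_8352e3_an, row VTQ: Vitali's theorem for powers with varying exponents
-/

set_option autoImplicit false

namespace Pool.Agent.H46.HB
open MeasureTheory Set Filter Topology Pool.Agent.H80.HS Pool.Agent.H93.HQ Pool.Agent.H27.HB
open scoped ContDiff ENNReal

theorem vtq_sub {a b Q : ℝ} (hQ : 0 ≤ Q) : |a - b| ^ Q ≤ 2 ^ Q * (|a| ^ Q + |b| ^ Q) := by
  have h0 : 0 ≤ |a| ^ Q := Real.rpow_nonneg (abs_nonneg _) _
  have h1 : 0 ≤ |b| ^ Q := Real.rpow_nonneg (abs_nonneg _) _
  have key : ∀ c : ℝ, |a| ≤ |c| → |b| ≤ |c| → |a - b| ^ Q ≤ 2 ^ Q * |c| ^ Q := by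
    intro c hac hbc
    rw [← Real.mul_rpow (by norm_num) (abs_nonneg c)]
    refine Real.rpow_le_rpow (abs_nonneg _) ?_ hQ
    have := abs_sub a b
    linarith
  rcases le_total |a| |b| with h | h
  · refine (key b h le_rfl).trans ?_
    gcongr
    linarith
  · refine (key a le_rfl h).trans ?_
    gcongr
    linarith

theorem pf_VTQ (hVIT : T_VIT) : T_VTQ := by
  intro n q Q φ u hQ hq hqQ hφ hu hlim htl
  have hQ0 : 0 < Q := by linarith
  have hFm : ∀ k, AEStronglyMeasurable (fun z => |φ k z| ^ q k) volume := fun k =>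
    ((hφ k).aemeasurable.abs.pow_const _).aestronglyMeasurable
  have hfm : AEStronglyMeasurable (fun z => |u z| ^ Q) volume :=
    (hu.aemeasurable.abs.pow_const _).aestronglyMeasurable
  have hptw : ∀ᵐ z, Tendsto (fun k => |φ k z| ^ q k) atTop (𝓝 (|u z| ^ Q)) := by
    filter_upwards [hlim] with z hz
    exact hz.abs.rpow hqQ (Or.inr hQ0)
  have hqle : ∀ᶠ k in atTop, q k ≤ Q + 1 :=
    (hqQ.eventually (gt_mem_nhds (show Q < Q + 1 by linarith))).mono fun k hk => hk.le
  have hint : ∀ᶠ k in atTop, Integrable (fun z => |φ k z| ^ q k) := by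
    obtain ⟨M, R, h⟩ := htl 1 one_pos
    exact h.mono fun k hk => hk.1
  obtain ⟨h1, h2, h3⟩ := hVIT n (fun k z => |φ k z| ^ q k) (fun z => |u z| ^ Q) hFm hptw (by
    intro η hη
    obtain ⟨M, R, h⟩ := htl η hη
    refine ⟨(max M 1) ^ (Q + 1), R, ?_⟩
    filter_upwards [h, hqle] with k hk hkq
    refine ⟨hk.1, le_trans ?_ hk.2⟩
    have habs : ∀ z, |(|φ k z| ^ q k)| = |φ k z| ^ q k := fun z =>
      abs_of_nonneg (Real.rpow_nonneg (abs_nonneg _) _)
    simp only [habs]
    refine setIntegral_mono_set hk.1.integrableOn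
      (Filter.Eventually.of_forall fun z => Real.rpow_nonneg (abs_nonneg _) _)
      (Filter.Eventually.of_forall ?_)
    intro z hz
    rcases hz with hz | hz
    · left
      by_contra hc
      push Not at hc
      have h4 : |φ k z| ≤ max M 1 := hc.trans (le_max_left _ _)
      have h5 : |φ k z| ^ q k ≤ (max M 1) ^ (Q + 1) := by
        calc |φ k z| ^ q k ≤ (max M 1) ^ q k :=
              Real.rpow_le_rpow (abs_nonneg _) h4 (by have := hq k; linarith)
          _ ≤ _ := Real.rpow_le_rpow_of_exponent_le (le_max_right _ _) hkq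
      exact absurd hz (not_lt.2 h5)
    · exact Or.inr hz)
  refine ⟨h1, h3, ?_, ?_⟩
  · rintro θ hθ ⟨B, hB⟩
    have hB' : ∀ z, |θ z| ≤ max B 0 := fun z => (hB z).trans (le_max_left _ _)
    have hB0 : 0 ≤ max B 0 := le_max_right _ _
    have hmul : ∀ g : H n → ℝ, Integrable g → Integrable fun z => g z * θ z := by
      intro g hg
      refine (hg.abs.const_mul (max B 0)).mono' (hg.1.mul hθ.aestronglyMeasurable) ?_
      refine Filter.Eventually.of_forall fun z => ?_
      rw [norm_mul, Real.norm_eq_abs, Real.norm_eq_abs, mul_comm]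
      have := hB' z
      gcongr
    rw [tendsto_iff_norm_sub_tendsto_zero]
    have h5 : Tendsto (fun k => max B 0 * ∫ z, |(|φ k z| ^ q k - |u z| ^ Q)|) atTop (𝓝 0) := by
      have := h2.const_mul (max B 0)
      rwa [mul_zero] at this
    refine squeeze_zero' (Filter.Eventually.of_forall fun k => norm_nonneg _) ?_ h5
    filter_upwards [hint] with k hk
    rw [← integral_sub (hmul _ hk) (hmul _ h1), ← integral_const_mul]
    refine (norm_integral_le_integral_norm _).trans ?_
    refine integral_mono_ae ((hmul _ hk).sub (hmul _ h1)).norm ((hk.sub h1).abs.const_mul _) ?_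
    refine Filter.Eventually.of_forall fun z => ?_
    show ‖|φ k z| ^ q k * θ z - |u z| ^ Q * θ z‖ ≤ max B 0 * |(|φ k z| ^ q k - |u z| ^ Q)|
    rw [← sub_mul, norm_mul, Real.norm_eq_abs, Real.norm_eq_abs, mul_comm]
    have := hB' z
    gcongr
  · intro hqc
    set A : ℝ := 2 ^ Q with hA
    have hA0 : 0 < A := by positivity
    have hdct : Tendsto (fun k => ∫ z, min (|φ k z - u z| ^ Q) (2 * A * |u z| ^ Q)) atTop
        (𝓝 (∫ z : H n, (0 : ℝ))) := by
      refine tendsto_integral_of_dominated_convergence (fun z => 2 * A * |u z| ^ Q) ?_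
        (h1.const_mul _) ?_ ?_
      · intro k
        exact ((((hφ k).sub hu).aemeasurable.abs.pow_const Q).min
          (hfm.aemeasurable.const_mul _)).aestronglyMeasurable
      · intro k
        refine Filter.Eventually.of_forall fun z => ?_
        have e1 : 0 ≤ |φ k z - u z| ^ Q := Real.rpow_nonneg (abs_nonneg _) _
        have e2 : 0 ≤ |u z| ^ Q := Real.rpow_nonneg (abs_nonneg _) _
        rw [Real.norm_eq_abs, abs_of_nonneg (le_min e1 (by positivity))]
        exact min_le_right _ _
      · filter_upwards [hlim] with z hz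
        have e1 : Tendsto (fun k => |φ k z - u z| ^ Q) atTop (𝓝 0) := by
          have e2 : Tendsto (fun k => |φ k z - u z|) atTop (𝓝 0) := by
            have := (hz.sub_const (u z)).abs
            rwa [sub_self, abs_zero] at this
          have e3 := e2.rpow_const (p := Q) (Or.inr hQ0.le)
          rwa [Real.zero_rpow hQ0.ne'] at e3
        have e4 : 0 ≤ 2 * A * |u z| ^ Q := by
          have := Real.rpow_nonneg (abs_nonneg (u z)) Q
          positivity
        have e5 := e1.min (tendsto_const_nhds (x := 2 * A * |u z| ^ Q))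
        rwa [min_eq_left e4] at e5
    rw [integral_zero] at hdct
    have hsum : Tendsto (fun k => A * (∫ z, |(|φ k z| ^ q k - |u z| ^ Q)|) +
        ∫ z, min (|φ k z - u z| ^ Q) (2 * A * |u z| ^ Q)) atTop (𝓝 0) := by
      have := (h2.const_mul A).add hdct
      rwa [mul_zero, add_zero] at this
    refine squeeze_zero' (Filter.Eventually.of_forall fun k => integral_nonneg fun z =>
      Real.rpow_nonneg (abs_nonneg _) _) ?_ hsum
    filter_upwards [hint] with k hk
    have hdi : Integrable fun z => |(|φ k z| ^ q k - |u z| ^ Q)| := (hk.sub h1).abs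
    have hmi : Integrable fun z => min (|φ k z - u z| ^ Q) (2 * A * |u z| ^ Q) := by
      refine (h1.const_mul (2 * A)).mono' ?_ ?_
      · exact ((((hφ k).sub hu).aemeasurable.abs.pow_const Q).min
          (hfm.aemeasurable.const_mul _)).aestronglyMeasurable
      · refine Filter.Eventually.of_forall fun z => ?_
        have e1 : 0 ≤ |φ k z - u z| ^ Q := Real.rpow_nonneg (abs_nonneg _) _
        have e2 : 0 ≤ |u z| ^ Q := Real.rpow_nonneg (abs_nonneg _) _
        rw [Real.norm_eq_abs, abs_of_nonneg (le_min e1 (by positivity))]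
        exact min_le_right _ _
    have hpt : ∀ z, |φ k z - u z| ^ Q ≤ A * |(|φ k z| ^ q k - |u z| ^ Q)| +
        min (|φ k z - u z| ^ Q) (2 * A * |u z| ^ Q) := by
      intro z
      rcases le_total (|φ k z - u z| ^ Q) (2 * A * |u z| ^ Q) with h | h
      · rw [min_eq_left h]
        have : 0 ≤ A * |(|φ k z| ^ q k - |u z| ^ Q)| := by positivity
        linarith
      · rw [min_eq_right h]
        have e1 := vtq_sub (a := φ k z) (b := u z) hQ0.le
        have e2 := le_abs_self (|φ k z| ^ q k - |u z| ^ Q)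
        rw [hqc k] at e2 ⊢
        nlinarith
    unfold ms
    rw [← integral_const_mul, ← integral_add (hdi.const_mul A) hmi]
    refine integral_mono_of_nonneg (Filter.Eventually.of_forall fun z =>
      Real.rpow_nonneg (abs_nonneg _) _) ((hdi.const_mul A).add hmi)
      (Filter.Eventually.of_forall hpt)

end Pool.Agent.H46.HB
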