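import Pool.Agent.H27.HB.TA
import Pool.Agent.H27.HB.TF

/-!
# MP_8352e3_an, row ZIQ: the gradients of the Cayley transform lie in `L^Q`
-/

set_option autoImplicit false

namespace Pool.Agent.H46.HB
open MeasureTheory Set Filter Topology Pool.Agent.H80.HS Pool.Agent.H93.HQ Pool.Agent.H27.HB
open scoped ContDiff ENNReal

theorem pf_ZIQ (hZID : T_ZID) (hWIN : T_WIN) (hHGC : T_HGC) : T_ZIQ := by
  intro n hn i b
  obtain ⟨h1, -, -, -, h5⟩ := hZID n hn
  have hcont : Continuous (hg (rz i b : H n → ℝ)) := (hHGC n _).1 ((h1 i b).of_le (by simp))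
  have hww : ∀ z : H n, 0 < ww z := by
    intro z
    have h2 : 0 ≤ Pool.Agent.H93.HQ.sq z := sq_nonneg' z
    unfold ww
    positivity
  have hsq : ∀ z : H n, ‖hg (rz i b) z‖ ^ 2 ≤ 8 * n / ww z := by
    intro z
    rw [← h5 z]
    have h6 : ‖hg (rz i b) z‖ ^ 2 ≤ ‖hg (rz i true) z‖ ^ 2 + ‖hg (rz i false) z‖ ^ 2 := by
      cases b
      · have := sq_nonneg ‖hg (rz i true) z‖
        linarith
      · have := sq_nonneg ‖hg (rz i false) z‖
        linarith
    exact h6.trans (Finset.single_le_sum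
      (f := fun i => ‖hg (rz i true) z‖ ^ 2 + ‖hg (rz i false) z‖ ^ 2)
      (fun i _ => by positivity) (Finset.mem_univ i))
  have hn0 : (0 : ℝ) < n := by exact_mod_cast hn
  have hw : Integrable (fun z : H n => (8 * (n : ℝ)) ^ ((n : ℝ) + 1) * ww z ^ (-((n : ℝ) + 1))) :=
    (hWIN n _ (by linarith)).const_mul _
  refine hw.mono' (hcont.norm.measurable.pow_const _).aestronglyMeasurable ?_
  refine Filter.Eventually.of_forall fun z => ?_
  have h7 : 0 ≤ ‖hg (rz i b) z‖ := norm_nonneg _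
  rw [Real.norm_eq_abs, abs_of_nonneg (Real.rpow_nonneg h7 _)]
  have h8 : ‖hg (rz i b) z‖ ^ (2 * (n : ℝ) + 2) = (‖hg (rz i b) z‖ ^ 2) ^ ((n : ℝ) + 1) := by
    rw [← Real.rpow_two, ← Real.rpow_mul h7]
    congr 1
    ring
  rw [h8, Real.rpow_neg (hww z).le, ← div_eq_mul_inv, ← Real.div_rpow (by positivity) (hww z).le]
  exact Real.rpow_le_rpow (by positivity) (hsq z) (by positivity)

end Pool.Agent.H46.HB
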